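import Pool.Agent.H84.FK.Targets3

/-!
# Board fk2, module Z6A
-/

set_option autoImplicit false

open Pool.Agent.H84.FK

namespace Pool.Agent.H47.FKZ6A

/-- a central involution of a nontrivial finite 2-group -/
theorem central_inv {G : Type} [Group G] [Finite G] (S : Subgroup G) (hS : IsPGroup 2 S) (u : G)
    (hu : u ∈ S) (hu1 : u ≠ 1) : ∃ w ∈ S, w * w = 1 ∧ w ≠ 1 ∧ ∀ g ∈ S, g * w = w * g := by
  have : Nontrivial S := ⟨⟨u, hu⟩, 1, fun h => hu1 (congrArg Subtype.val h)⟩
  have : Fact (Nat.Prime 2) := ⟨Nat.prime_two⟩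
  have hc : Nontrivial (Subgroup.center S) := hS.center_nontrivial
  have hcp : IsPGroup 2 (Subgroup.center S) := hS.to_subgroup _
  have hdvd : 2 ∣ Nat.card (Subgroup.center S) := by
    rcases hcp.card_eq_or_dvd with h | h
    · exfalso
      have := Nat.card_eq_one_iff_unique.1 h
      exact not_subsingleton _ this.1
    · exact h
  obtain ⟨y, hy⟩ := exists_prime_orderOf_dvd_card' 2 hdvd
  have hy2 : y * y = 1 := by
    have h1 := pow_orderOf_eq_one y
    rw [hy, pow_two] at h1
    exact h1
  have hy1 : y ≠ 1 := by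
    rintro rfl
    rw [orderOf_one] at hy
    omega
  refine ⟨((y : S) : G), (y : S).2, ?_, ?_, ?_⟩
  · have h1 : ((y * y : Subgroup.center S) : S) = 1 := by rw [hy2]; rfl
    have h2 : ((y : S) * (y : S) : S) = 1 := h1
    have h3 : (((y : S) * (y : S) : S) : G) = 1 := by rw [h2]; rfl
    exact h3
  · intro h1
    apply hy1
    apply Subtype.ext
    apply Subtype.ext
    exact h1
  · intro g hg
    have h1 := Subgroup.mem_center_iff.1 y.2 ⟨g, hg⟩
    exact congrArg Subtype.val h1

theorem pf_z6a (hZI : T_ZI) (hSW : T_SW) (hZ5 : T_Z5) (hD3 : T_D3) (hD7 : T_D7) : T_Z6A := by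
  intro G _ A A0 B B0 S hC hA2 hB2 hS
  have hfin : Finite G := hC.fin
  have hC' := hSW G A A0 B B0 hC
  obtain ⟨u, huA0, hu2, hu1, hcu⟩ := hZI G A A0 B B0 hC hA2
  obtain ⟨z, hzB0, hz2, hz1, hcz⟩ := hZI G B B0 A A0 hC' hB2
  have huA : u ∈ A := hC.twoA.1 huA0
  have hzB : z ∈ B := hC.twoB.1 hzB0
  have huS : u ∈ S := hS.uA u huA0 ⟨1, by rw [pow_one, pow_two, hu2]⟩
  have hzS : z ∈ S := hS.uB z hzB0 ⟨1, by rw [pow_one, pow_two, hz2]⟩
  obtain ⟨w, hwS, hw2, hw1, hcw⟩ := central_inv S hS.pg u huS hu1
  obtain ⟨e, heA, heS, d, hdB, hdS, hwed⟩ := hS.fac w hwS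
  subst hwed
  have hdu : d * u = u * d := by
    have h1 := hcw u huS
    have h2 := hcu e heA
    have h3 : e * (d * u) = e * (u * d) := by
      calc e * (d * u) = (e * d) * u := by group
        _ = u * (e * d) := h1.symm
        _ = (u * e) * d := by group
        _ = (e * u) * d := by rw [h2]
        _ = e * (u * d) := by group
    exact mul_left_cancel h3
  have hez : e * z = z * e := by
    have h1 := hcw z hzS
    have h2 := hcz d hdB
    have h3 : (e * z) * d = (z * e) * d := by
      calc (e * z) * d = e * (z * d) := by group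
        _ = e * (d * z) := by rw [h2]
        _ = (e * d) * z := by group
        _ = z * (e * d) := h1.symm
        _ = (z * e) * d := by group
    exact mul_right_cancel h3
  have hdB0 : d ∈ B0 := hZ5 G A A0 B B0 hC u d huA hcu hu2 hu1 hdB hdu
  have heA0 : e ∈ A0 := hZ5 G B B0 A A0 hC' z e hzB hcz hz2 hz1 heA hez
  have hed : e * d = d * e := by
    have h1 := hcw e heS
    have h3 : e * (e * d) = e * (d * e) := by
      rw [h1]
      group
    exact mul_left_cancel h3
  have hee : e * e = (d * d)⁻¹ := by
    rw [eq_inv_iff_mul_eq_one]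
    calc (e * e) * (d * d) = e * (e * d) * d := by group
      _ = e * (d * e) * d := by rw [hed]
      _ = (e * d) * (e * d) := by group
      _ = 1 := hw2
  have he2 : e * e = 1 := by
    apply hD3 G A A0 B B0 hC 1 (e * e) (d * d)⁻¹ (A.mul_mem heA heA)
      (B.inv_mem (B.mul_mem hdB hdB))
    rw [hee]
    group
  have hd2 : d * d = 1 := by
    rw [he2] at hee
    exact inv_eq_one.1 hee.symm
  have hen : e ≠ 1 := by
    rintro rfl
    have hdn : d ≠ 1 := by
      rintro rfl
      exact hw1 (mul_one 1)
    obtain ⟨y, hyS, hyB, hyB0⟩ := hS.sB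
    have hyd : y * d = d * y := by
      have h1 := hcw y hyS
      simpa using h1
    have hcd : ∀ b ∈ B, b * d = d * b := by
      intro b hb
      by_cases hb0 : b ∈ B0
      · exact hC.abB b hb0 d hdB0
      · have h1 : b * y ∈ B0 := hC.twoB.2 b hb y hyB hb0 hyB0
        have h2 := hC.abB (b * y) h1 d hdB0
        have h3 : (b * d) * y = (d * b) * y := by
          calc (b * d) * y = b * (d * y) := by group
            _ = b * (y * d) := by rw [hyd]
            _ = (b * y) * d := by group
            _ = d * (b * y) := h2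
            _ = (d * b) * y := by group
        exact mul_right_cancel h3
    apply hD7 G A A0 B B0 hC u d 1 hu1 hdn hcu hcd
    simpa using hdu.symm
  have hdn : d ≠ 1 := by
    rintro rfl
    obtain ⟨x, hxS, hxA, hxA0⟩ := hS.sA
    have hxe : x * e = e * x := by
      have h1 := hcw x hxS
      simpa using h1
    have hce : ∀ a ∈ A, a * e = e * a := by
      intro a ha
      by_cases ha0 : a ∈ A0
      · exact hC.abA a ha0 e heA0
      · have h1 : a * x ∈ A0 := hC.twoA.2 a ha x hxA ha0 hxA0
        have h2 := hC.abA (a * x) h1 e heA0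
        have h3 : (a * e) * x = (e * a) * x := by
          calc (a * e) * x = a * (e * x) := by group
            _ = a * (x * e) := by rw [hxe]
            _ = (a * x) * e := by group
            _ = e * (a * x) := h2
            _ = (e * a) * x := by group
        exact mul_right_cancel h3
    apply hD7 G A A0 B B0 hC e z 1 hen hz1 hce hcz
    simpa using hez
  exact ⟨u, z, e, d, {
    uA0 := huA0
    cu := hcu
    une := hu1
    zB0 := hzB0
    cz := hcz
    zne := hz1
    eA0 := heA0
    eS := heS
    e2 := he2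
    ene := hen
    dB0 := hdB0
    dS := hdS
    d2 := hd2
    dne := hdn
    ed := hed
    cw := hcw
    ez := hez
    du := hdu }⟩

end Pool.Agent.H47.FKZ6A
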