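import Pool.Agent.H84.FK.Targets3

/-!
# Board fk2, module Z7B
-/

set_option autoImplicit false

open Pool.Agent.H84.FK

namespace Pool.Agent.H47.FKZ7B

/-- the four group -/
def four {G : Type} [Group G] (u z : G) (hu : u * u = 1) (hz : z * z = 1) (h : u * z = z * u) :
    Subgroup G where
  carrier := {1, u, z, u * z}
  one_mem' := by simp
  mul_mem' := by
    have e1 : u * (u * z) = z := by rw [← mul_assoc, hu, one_mul]
    have e2 : z * (u * z) = u := by rw [h, ← mul_assoc, hz, one_mul]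
    have e3 : (u * z) * u = z := by rw [h, mul_assoc, hu, mul_one]
    have e4 : (u * z) * z = u := by rw [mul_assoc, hz, mul_one]
    have e5 : (u * z) * (u * z) = 1 := by rw [← mul_assoc, e3, hz]
    intro a b ha hb
    simp only [Set.mem_insert_iff, Set.mem_singleton_iff] at ha hb ⊢
    rcases ha with rfl | rfl | rfl | rfl <;> rcases hb with rfl | rfl | rfl | rfl <;>
      simp [hu, hz, e1, e2, e3, e4, e5, ← h]
  inv_mem' := by
    intro a ha
    simp only [Set.mem_insert_iff, Set.mem_singleton_iff] at ha ⊢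
    rcases ha with rfl | rfl | rfl | rfl
    · simp
    · right
      left
      exact inv_eq_of_mul_eq_one_right hu
    · right
      right
      left
      exact inv_eq_of_mul_eq_one_right hz
    · right
      right
      right
      apply inv_eq_of_mul_eq_one_right
      calc u * z * (u * z) = u * z * (z * u) := by rw [h]
        _ = u * (z * z) * u := by group
        _ = 1 := by rw [hz, mul_one, hu]

theorem card_four {G : Type} [Group G] (u z : G) (hu : u * u = 1) (hz : z * z = 1)
    (h : u * z = z * u) (hu1 : u ≠ 1) (hz1 : z ≠ 1) (huz : u ≠ z) :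
    Nat.card (four u z hu hz h) = 4 := by
  have h1 : u * z ≠ 1 := by
    intro h2
    apply huz
    have h3 : u * z = z * z := h2.trans hz.symm
    exact mul_right_cancel h3
  have h2 : u * z ≠ u := fun h3 => hz1 (mul_eq_left.1 h3)
  have h3 : u * z ≠ z := fun h4 => hu1 (mul_eq_right.1 h4)
  have e : ((four u z hu hz h : Subgroup G) : Set G) = {1, u, z, u * z} := rfl
  rw [← SetLike.coe_sort_coe, e, Nat.card_coe_set_eq, Set.ncard_insert_of_notMem,
    Set.ncard_insert_of_notMem, Set.ncard_insert_of_notMem, Set.ncard_singleton]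
  · simpa using h3.symm
  · simp only [Set.mem_insert_iff, Set.mem_singleton_iff, not_or]
    exact ⟨huz, h2.symm⟩
  · simp only [Set.mem_insert_iff, Set.mem_singleton_iff, not_or]
    exact ⟨hu1.symm, hz1.symm, h1.symm⟩

theorem pf_z7b (hSGA : T_SGA) (hSGR : T_SGR) (hN0 : T_N0) (hD4 : T_D4) : T_Z7B := by
  intro G _ A A0 B B0 S s u z hC hB hZ
  have hfin : Finite G := hC.fin
  obtain ⟨_, _, hcA, hcB, hcG, hnA, _⟩ := hD4 G A A0 B B0 hC
  obtain ⟨K, hKn, hK2, hKo, hKs, hKc⟩ := hSGA G A A0 B B0 hC hB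
  have hsK : s ∉ K := hKs s hZ.sB hZ.snB hZ.s2
  have hKbot : K ≠ ⊥ := by
    rintro rfl
    rw [Subgroup.card_bot, hcG, mul_assoc] at hKc
    omega
  have huA : u ∈ A := hC.twoA.1 hZ.uA0
  have hu2 : u * u = 1 := hZ.u2
  have hz1 : z ≠ 1 := by
    intro h
    apply hZ.znA0
    rw [h]
    exact A0.one_mem
  have huz1 : u ≠ z := by
    intro h
    apply hZ.znA0
    rw [← h]
    exact hZ.uA0
  have hzK : z ∈ K := by
    have e : z = u⁻¹ * (s * u * s⁻¹) := by
      rw [hZ.su]
      group
    rw [e]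
    by_cases hu : u ∈ K
    · exact K.mul_mem (K.inv_mem hu) (hKn.conj_mem u hu s)
    · apply hK2
      · intro h
        exact hu (by simpa using K.inv_mem h)
      · intro h
        apply hu
        have h1 := hKn.conj_mem _ h s⁻¹
        have h2 : s⁻¹ * (s * u * s⁻¹) * s⁻¹⁻¹ = u := by group
        rw [h2] at h1
        exact h1
  obtain ⟨k, hk, hAk⟩ := hZ.cardA
  have huK : u ∉ K := by
    intro hu
    have h1 := (hN0 G A A0 B B0 hC K hKn hKbot).2
    have hpos : 0 < Nat.card K := Nat.card_pos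
    have h2 : Nat.card A * Nat.card K = (2 * Nat.card (A ⊓ K : Subgroup G)) * Nat.card K := by
      rw [h1, hKc]
      ring
    have h3 := Nat.eq_of_mul_eq_mul_right hpos h2
    have h4 : four u z hu2 hZ.z2 hZ.uz ≤ A ⊓ K := by
      intro x hx
      have hx' : x ∈ ({1, u, z, u * z} : Set G) := hx
      simp only [Set.mem_insert_iff, Set.mem_singleton_iff] at hx'
      rw [Subgroup.mem_inf]
      rcases hx' with rfl | rfl | rfl | rfl
      · exact ⟨A.one_mem, K.one_mem⟩
      · exact ⟨huA, hu⟩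
      · exact ⟨hZ.zA, hzK⟩
      · exact ⟨A.mul_mem huA hZ.zA, K.mul_mem hu hzK⟩
    have h5 := Subgroup.card_dvd_of_le h4
    rw [card_four u z hu2 hZ.z2 hZ.uz hZ.une hz1 huz1] at h5
    obtain ⟨m, hm⟩ := h5
    apply hk
    exact ⟨m, by omega⟩
  have hcK : u * s ∈ K := hK2 u s huK hsK
  have hcc : (u * s) * (u * s) = z := by
    calc (u * s) * (u * s) = u * (s * u * s⁻¹) * (s * s) := by group
      _ = u * (u * z) * 1 := by rw [hZ.su, hZ.s2]
      _ = (u * u) * z := by group
      _ = z := by rw [hu2, one_mul]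
  have hord : orderOf (u * s) = 4 := by
    have h1 : orderOf (u * s) = 2 ^ (1 + 1) := by
      have : Fact (Nat.Prime 2) := ⟨Nat.prime_two⟩
      apply orderOf_eq_prime_pow
      · rw [pow_one, pow_two, hcc]
        exact hz1
      · have e : (u * s) ^ (2 ^ (1 + 1)) = ((u * s) * (u * s)) * ((u * s) * (u * s)) := by
          show (u * s) ^ (2 * 2) = _
          rw [pow_mul, pow_two, pow_two]
        rw [e, hcc, hZ.z2]
    rw [h1]
    norm_num
  have hGS : Nat.card G = 8 * S.index := by
    rw [← hZ.card, Subgroup.card_mul_index]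
  have hKcard : Nat.card K = 4 * S.index := by omega
  obtain ⟨K2, hK2n, hK2le, hcK2, hK22, hK2c⟩ := hSGR G K hKn (u * s) hcK (by rw [hord]; norm_num)
    (by
      rw [hord, hKcard, Nat.mul_div_cancel_left _ (by norm_num)]
      exact hZ.sy.odd)
  have hzK2 : z ∈ K2 := by
    rw [← hcc]
    exact hK22 _ hcK _ hcK hcK2 hcK2
  have hK2bot : K2 ≠ ⊥ := by
    rintro rfl
    exact hz1 (Subgroup.mem_bot.1 hzK2)
  have h1 := (hN0 G A A0 B B0 hC K2 hK2n hK2bot).2
  have hpos : 0 < Nat.card K2 := Nat.card_pos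
  have h2 : Nat.card A * Nat.card K2 = (4 * Nat.card (A ⊓ K2 : Subgroup G)) * Nat.card K2 := by
    rw [h1, hKc, hK2c]
    ring
  have h3 := Nat.eq_of_mul_eq_mul_right hpos h2
  have h4 : k = Nat.card (A ⊓ K2 : Subgroup G) := by omega
  apply hk
  rw [h4]
  have h5 : orderOf z ∣ Nat.card (A ⊓ K2 : Subgroup G) :=
    Subgroup.orderOf_dvd_natCard _ (Subgroup.mem_inf.2 ⟨hZ.zA, hzK2⟩)
  have h6 : orderOf z = 2 := orderOf_eq_prime (by rw [pow_two]; exact hZ.z2) hz1
  rw [h6] at h5
  exact h5

end Pool.Agent.H47.FKZ7B
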