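import Pool.Agent.H84.FK.Targets3

/-!
# Board fk2, module Z9
-/

set_option autoImplicit false

open Pool.Agent.H84.FK

namespace Pool.Agent.H47.FKZ9

/-- an element of 2-power order in a subgroup of odd order is trivial -/
theorem eq_one_of_odd {G : Type} [Group G] [Finite G] (A S : Subgroup G) (hA : ¬ 2 ∣ Nat.card A)
    (hS : IsPGroup 2 S) (x : G) (hxA : x ∈ A) (hxS : x ∈ S) : x = 1 := by
  obtain ⟨k, hk⟩ := hS ⟨x, hxS⟩
  have hk' : x ^ (2 ^ k) = 1 := congrArg Subtype.val hk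
  have h1 : orderOf x ∣ 2 ^ k := orderOf_dvd_of_pow_eq_one hk'
  have h2 : orderOf x ∣ Nat.card A := Subgroup.orderOf_dvd_natCard A hxA
  obtain ⟨m, _, hm⟩ := (Nat.dvd_prime_pow Nat.prime_two).1 h1
  rcases Nat.eq_zero_or_pos m with h0 | h0
  · rw [h0, pow_zero] at hm
    exact orderOf_eq_one_iff.1 hm
  · exfalso
    apply hA
    have h3 : 2 ∣ 2 ^ m := dvd_pow_self 2 (by omega)
    rw [← hm] at h3
    exact h3.trans h2

theorem pf_z9 (hSYL : T_SYL) (hSGA : T_SGA) (hSGR : T_SGR) (hN0 : T_N0) (hD3 : T_D3)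
    (hD4 : T_D4) : T_Z9 := by
  intro G _ A A0 B B0 hC hA hB
  have hfin : Finite G := hC.fin
  obtain ⟨S, hS⟩ := hSYL G A A0 B B0 hC
  obtain ⟨t, htS, htA, htA0⟩ := hS.sA
  obtain ⟨s, hsS, hsB, hsB0⟩ := hS.sB
  obtain ⟨_, _, hcA, hcB, hcG, hnA, _⟩ := hD4 G A A0 B B0 hC
  have htt : t * t = 1 :=
    eq_one_of_odd A0 S hA hS.pg (t * t) (hC.twoA.2 t htA t htA htA0 htA0) (S.mul_mem htS htS)
  have hss : s * s = 1 :=
    eq_one_of_odd B0 S hB hS.pg (s * s) (hC.twoB.2 s hsB s hsB hsB0 hsB0) (S.mul_mem hsS hsS)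
  have hSA : ∀ x ∈ S, x ∈ A → x = 1 ∨ x = t := by
    intro x hxS hxA
    by_cases hx0 : x ∈ A0
    · exact Or.inl (eq_one_of_odd A0 S hA hS.pg x hx0 hxS)
    · right
      have h1 : x * t = 1 :=
        eq_one_of_odd A0 S hA hS.pg (x * t) (hC.twoA.2 x hxA t htA hx0 htA0) (S.mul_mem hxS htS)
      have h2 : x * t = t * t := h1.trans htt.symm
      exact mul_right_cancel h2
  have hSB : ∀ x ∈ S, x ∈ B → x = 1 ∨ x = s := by
    intro x hxS hxB
    by_cases hx0 : x ∈ B0
    · exact Or.inl (eq_one_of_odd B0 S hB hS.pg x hx0 hxS)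
    · right
      have h1 : x * s = 1 :=
        eq_one_of_odd B0 S hB hS.pg (x * s) (hC.twoB.2 x hxB s hsB hx0 hsB0) (S.mul_mem hxS hsS)
      have h2 : x * s = s * s := h1.trans hss.symm
      exact mul_right_cancel h2
  have ht1 : t ≠ 1 := by
    rintro rfl
    exact htA0 A0.one_mem
  have hs1 : s ≠ 1 := by
    rintro rfl
    exact hsB0 B0.one_mem
  have hst1 : s * t ≠ 1 := by
    intro h
    have h1 : t = s := by
      have h2 : s * t = s * s := h.trans hss.symm
      exact mul_left_cancel h2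
    apply ht1
    apply hD3 G A A0 B B0 hC 1 t s htA hsB
    rw [h1]
    group
  have hcomm : t * s = s * t := by
    obtain ⟨a, haA, haS, b, hbB, hbS, hab⟩ := hS.fac (s * t) (S.mul_mem hsS htS)
    rcases hSA a haS haA with rfl | rfl <;> rcases hSB b hbS hbB with rfl | rfl
    · exact absurd (hab.trans (mul_one 1)) hst1
    · exfalso
      rw [one_mul] at hab
      exact ht1 (mul_eq_left.1 hab)
    · exfalso
      rw [mul_one] at hab
      exact hs1 (mul_eq_right.1 hab)
    · exact hab.symm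
  obtain ⟨K, hKn, hK2, hKo, hKs, hKc⟩ := hSGA G A A0 B B0 hC hB
  have hsK : s ∉ K := hKs s hsB hsB0 hss
  have hA0K : ∀ x ∈ A0, x ∈ K := by
    intro x hx
    apply hKo
    intro h
    exact hA (h.trans (Subgroup.orderOf_dvd_natCard A0 hx))
  have hKbot : K ≠ ⊥ := by
    rintro rfl
    rw [Subgroup.card_bot, hcG, mul_assoc] at hKc
    omega
  have htK : t ∉ K := by
    intro h
    obtain ⟨a, haA, k, hk, hak⟩ := (hN0 G A A0 B B0 hC K hKn hKbot).1 s
    have haK : a ∉ K := by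
      intro h1
      apply hsK
      rw [hak]
      exact K.mul_mem h1 hk
    have ha0 : a ∉ A0 := fun h1 => haK (hA0K a h1)
    have h2 : a * t ∈ K := hA0K _ (hC.twoA.2 a haA t htA ha0 htA0)
    exact haK ((K.mul_mem_cancel_right h).1 h2)
  have hcK : t * s ∈ K := hK2 t s htK hsK
  have hc2 : (t * s) ^ 2 = 1 := by
    rw [pow_two]
    calc t * s * (t * s) = t * (s * t) * s := by group
      _ = t * (t * s) * s := by rw [hcomm]
      _ = (t * t) * (s * s) := by group
      _ = 1 := by rw [htt, hss, mul_one]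
  have hord : orderOf (t * s) = 2 := by
    apply orderOf_eq_prime hc2
    intro h
    rw [hcomm] at h
    exact hst1 h
  have hKcard : Nat.card K = 2 * (Nat.card A0 * Nat.card B0) := by
    rw [hcG] at hKc
    have h1 : 2 * Nat.card K = 2 * (2 * (Nat.card A0 * Nat.card B0)) := by
      rw [← hKc]
      ring
    omega
  have hodd : ¬ 2 ∣ Nat.card A0 * Nat.card B0 := by
    intro h
    rcases (Nat.Prime.dvd_mul Nat.prime_two).1 h with h | h
    · exact hA h
    · exact hB h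
  obtain ⟨K2, hK2n, hK2le, hcK2, _, hK2c⟩ := hSGR G K hKn (t * s) hcK (by rw [hord])
    (by
      rw [hord, hKcard, Nat.mul_div_cancel_left _ (by norm_num)]
      exact hodd)
  have hK2bot : K2 ≠ ⊥ := by
    rintro rfl
    rw [Subgroup.card_bot, hKcard] at hK2c
    have h1 : Nat.card A0 * Nat.card B0 = 1 := by omega
    have h2 : Nat.card A0 = 1 := Nat.eq_one_of_mul_eq_one_right h1
    have h3 : ∀ x ∈ A0, x = 1 := by
      intro x hx
      have h4 : A0 = ⊥ := Subgroup.card_eq_one.1 h2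
      rw [h4] at hx
      exact Subgroup.mem_bot.1 hx
    apply hnA
    intro x hx y hy
    by_cases hx0 : x ∈ A0
    · rw [h3 x hx0, one_mul, mul_one]
    · by_cases hy0 : y ∈ A0
      · rw [h3 y hy0, one_mul, mul_one]
      · rw [h3 _ (hC.twoA.2 x hx y hy hx0 hy0), h3 _ (hC.twoA.2 y hy x hx hy0 hx0)]
  have h1 := (hN0 G A A0 B B0 hC K2 hK2n hK2bot).2
  rw [hKc, hK2c] at h1
  have hpos : 0 < Nat.card K2 := Nat.card_pos
  have h2 : Nat.card A * Nat.card K2 = (4 * Nat.card (A ⊓ K2 : Subgroup G)) * Nat.card K2 := by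
    rw [h1]
    ring
  have h3 := Nat.eq_of_mul_eq_mul_right hpos h2
  rw [hcA] at h3
  apply hA
  exact ⟨Nat.card (A ⊓ K2 : Subgroup G), by omega⟩

end Pool.Agent.H47.FKZ9
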